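import Pool.Agent.helper86.OF.SpecM

/-!
# MP_c62920_co: the general form of the theorem (module FIG)
-/

open scoped BigOperators

namespace Pool.Agent.OF

noncomputable section

open Classical

theorem FIG_lt (hVIZ : VIZ_stmt) {V : Type} [Fintype V] (G : SimpleGraph V) (D : ℕ)
    (hD : 0 < D) (hC : Crit G D) : D < Fintype.card V := by
  have h1 : ∃ v, D ≤ dg G v := by
    by_contra hno
    push Not at hno
    have h2 := hVIZ V G (D - 1) (fun v => by
      have := hno v
      omega)
    rw [Nat.sub_add_cancel hD] at h2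
    exact hC.not h2
  obtain ⟨v, hv⟩ := h1
  have h3 : dg G v < Fintype.card V := by
    unfold dg dgs
    have h4 : (Finset.univ.filter fun w => G.Adj v w) ⊆ Finset.univ.erase v := by
      intro w hw
      rw [Finset.mem_filter] at hw
      rw [Finset.mem_erase]
      exact ⟨fun h => G.loopless.irrefl v (h ▸ hw.2), Finset.mem_univ _⟩
    have h5 := Finset.card_le_card h4
    rw [Finset.card_erase_of_mem (Finset.mem_univ v), Finset.card_univ] at h5
    have h6 : 0 < Fintype.card V := Fintype.card_pos_iff.2 ⟨v⟩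
    omega
  omega

theorem FIG (hVIZ : VIZ_stmt) (hBGN : BGN_stmt) (hTA1 : TA1_stmt) (hTA2 : TA2_stmt)
    (hOVF : OVF_stmt) (hMAC : MAC_stmt) : FIG_stmt := by
  intro ε hε
  obtain ⟨C1, N1, hC1, hB1⟩ := hBGN ε (ε / 80) hε (by positivity) (by linarith)
  obtain ⟨C2, N2, hC2, hB2⟩ := hBGN ε (ε / 20) hε (by positivity) (by linarith)
  obtain ⟨U1, M1, hT1⟩ := hTA1 ε (ε / 80) C1 hε (by positivity) (by linarith) hC1
  obtain ⟨U2, M2, hT2⟩ := hTA2 ε C2 hε hC2
  obtain ⟨K1, hK1⟩ := hMAC ε U1 hε
  obtain ⟨K2, hK2⟩ := hMAC ε U2 hε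
  refine ⟨1 + N1 + N2 + M1 + M2 + K1 + K2, ?_⟩
  intro V _ G D hN hD hCr
  have hNpos : 0 < Fintype.card V := by omega
  have hNR : (0 : ℝ) < Fintype.card V := by exact_mod_cast hNpos
  have hDpos : 0 < D := by
    have : (0 : ℝ) < D := lt_of_lt_of_le (by positivity) hD
    exact_mod_cast this
  have hDN : D ≤ Fintype.card V := (FIG_lt hVIZ G D hDpos hCr).le
  have hfin : (∃ W : Finset V, W.card % 2 = 1 ∧ D * (W.card - 1) + 2 ≤ ep G W W) →
      Fintype.card V % 2 = 1 ∧ ep G Finset.univ Finset.univ = D * (Fintype.card V - 1) + 2 := by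
    rintro ⟨W, hW1, hW2⟩
    obtain ⟨h1, h2⟩ := hOVF V G D hCr W hW1 hW2
    refine ⟨?_, h2⟩
    rw [h1, Finset.card_univ] at hW1
    exact hW1
  by_cases hA : ∃ y, (dg G y : ℝ) + 4 * (ε / 80 * Fintype.card V) ≤ D
  · -- Case A
    have hX : ∀ v, v ∈ (Finset.univ.filter fun v : V =>
        (D : ℝ) < dg G v + ε / 80 * Fintype.card V) ↔
        (D : ℝ) < dg G v + ε / 80 * Fintype.card V := by
      intro v
      simp only [Finset.mem_filter, Finset.mem_univ, true_and]
    generalize (Finset.univ.filter fun v : V =>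
        (D : ℝ) < dg G v + ε / 80 * Fintype.card V) = X at hX
    by_cases hbig : C1 * Fintype.card V ≤ ((∑ x ∈ X, (D - dg G x) + ep G X Xᶜ : ℕ) : ℝ)
    · exact absurd (hB1 V G D X (by omega) hCr.deg hD hX hbig) hCr.not
    · push Not at hbig
      rcases hT1 V G D X (by omega) hCr hD hX hA hbig.le with h | ⟨c, T, hT⟩
      · exact hfin h
      · exact absurd (hK1 V G D X c T (by omega) hD hDN hT) hCr.not
  · -- Case B
    push Not at hA
    have hX : ∀ v, v ∈ (Finset.univ : Finset V) ↔
        (D : ℝ) < dg G v + ε / 20 * Fintype.card V := by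
      intro v
      refine ⟨fun _ => ?_, fun _ => Finset.mem_univ _⟩
      have := hA v
      linarith
    by_cases hbig : C2 * Fintype.card V ≤
        ((∑ x ∈ (Finset.univ : Finset V), (D - dg G x) +
          ep G Finset.univ (Finset.univ : Finset V)ᶜ : ℕ) : ℝ)
    · exact absurd (hB2 V G D Finset.univ (by omega) hCr.deg hD hX hbig) hCr.not
    · push Not at hbig
      have hle : ((∑ x, (D - dg G x) : ℕ) : ℝ) ≤ C2 * Fintype.card V := by
        refine le_trans ?_ hbig.le
        exact_mod_cast Nat.le_add_right _ _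
      rcases hT2 V G D (by omega) hCr.deg hD (by
        intro v
        have h1 := hA v
        have h2 : 0 < ε * Fintype.card V := by positivity
        nlinarith) hle with h | ⟨c, T, hT⟩
      · exact hfin h
      · exact absurd (hK2 V G D Finset.univ c T (by omega) hD hDN hT) hCr.not

end

end Pool.Agent.OF
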