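import Pool.Agent.helper86.OF.SpecX

/-!
# MP_c62920_co: the Hall step (module HST)
-/

open scoped BigOperators

namespace Pool.Agent.OF

noncomputable section

open Classical

/-- Hall's condition on one side. -/
theorem HST_hall {V : Type} [Fintype V] (Γ : SimpleGraph V) (P S₀ T₀ : Finset V) (Dm : V → V)
    (r : ℕ) (δ : ℝ) (hSP : S₀ ⊆ P)
    (hS : ∀ x ∈ S₀, δ ≤ ((Finset.univ.filter fun b => Γ.Adj x b).card : ℝ))
    (hT : ∀ x ∈ T₀, δ ≤ ((Finset.univ.filter fun b => Γ.Adj x b).card : ℝ))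
    (hTP : ∀ x ∈ T₀, ∀ b, Γ.Adj x b → b ∈ P)
    (hP : S₀.Nonempty → (P.card : ℝ) < 2 * δ)
    (hD : ∀ x ∈ S₀, Dm x ≠ x → Γ.Adj x (Dm x) ∧ Dm x ∉ T₀)
    (hDi : Function.Injective Dm)
    (hr : r ≤ (S₀.filter fun x => Dm x ≠ x).card)
    (hc : S₀.card ≤ T₀.card + r) :
    ∀ S' ⊆ S₀, S'.card ≤ (Finset.univ.filter fun w => ∃ v ∈ S', Γ.Adj v w).card := by
  intro S' hS'
  rcases S'.eq_empty_or_nonempty with he | ⟨x, hx⟩
  · subst he
    simp
  by_cases hsm : (S'.card : ℝ) ≤ δ
  · have h1 := hS x (hS' hx)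
    have h2 : (Finset.univ.filter fun b => Γ.Adj x b) ⊆
        (Finset.univ.filter fun w => ∃ v ∈ S', Γ.Adj v w) := by
      intro b hb
      simp only [Finset.mem_filter, Finset.mem_univ, true_and] at hb ⊢
      exact ⟨x, hx, hb⟩
    have h3 := Finset.card_le_card h2
    have h4 : (S'.card : ℝ) ≤ ((Finset.univ.filter fun b => Γ.Adj x b).card : ℝ) := hsm.trans h1
    have h5 : S'.card ≤ (Finset.univ.filter fun b => Γ.Adj x b).card := by exact_mod_cast h4
    exact h5.trans h3
  · push Not at hsm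
    have hne : S₀.Nonempty := ⟨x, hS' hx⟩
    have hP' := hP hne
    -- all of T₀ is in the neighbourhood
    have hTN : T₀ ⊆ (Finset.univ.filter fun w => ∃ v ∈ S', Γ.Adj v w) := by
      intro y hy
      simp only [Finset.mem_filter, Finset.mem_univ, true_and]
      by_contra hno
      push Not at hno
      have hdis : Disjoint S' (Finset.univ.filter fun b => Γ.Adj y b) := by
        rw [Finset.disjoint_left]
        intro v hv hv'
        simp only [Finset.mem_filter, Finset.mem_univ, true_and] at hv'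
        exact hno v hv hv'.symm
      have hsub : S' ∪ (Finset.univ.filter fun b => Γ.Adj y b) ⊆ P := by
        intro v hv
        rcases Finset.mem_union.1 hv with h | h
        · exact hSP (hS' h)
        · simp only [Finset.mem_filter, Finset.mem_univ, true_and] at h
          exact hTP y hy v h
      have h1 := Finset.card_le_card hsub
      rw [Finset.card_union_of_disjoint hdis] at h1
      have h2 := hT y hy
      have h3 : (S'.card : ℝ) + ((Finset.univ.filter fun b => Γ.Adj y b).card : ℝ) ≤ P.card := by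
        exact_mod_cast h1
      linarith
    have hDN : (S'.filter fun x => Dm x ≠ x).image Dm ⊆
        (Finset.univ.filter fun w => ∃ v ∈ S', Γ.Adj v w) := by
      intro w hw
      obtain ⟨v, hv, rfl⟩ := Finset.mem_image.1 hw
      rw [Finset.mem_filter] at hv
      simp only [Finset.mem_filter, Finset.mem_univ, true_and]
      exact ⟨v, hv.1, (hD v (hS' hv.1) hv.2).1⟩
    have hdis : Disjoint T₀ ((S'.filter fun x => Dm x ≠ x).image Dm) := by
      rw [Finset.disjoint_right]
      intro w hw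
      obtain ⟨v, hv, rfl⟩ := Finset.mem_image.1 hw
      rw [Finset.mem_filter] at hv
      exact (hD v (hS' hv.1) hv.2).2
    have h1 := Finset.card_le_card (Finset.union_subset hTN hDN)
    rw [Finset.card_union_of_disjoint hdis, Finset.card_image_of_injective _ hDi] at h1
    have h2 : (S₀.filter fun x => Dm x ≠ x).card ≤
        (S'.filter fun x => Dm x ≠ x).card + (S₀ \ S').card := by
      have hsub : (S₀.filter fun x => Dm x ≠ x) ⊆ (S'.filter fun x => Dm x ≠ x) ∪ (S₀ \ S') := by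
        intro v hv
        rw [Finset.mem_filter] at hv
        by_cases hvS : v ∈ S'
        · exact Finset.mem_union_left _ (Finset.mem_filter.2 ⟨hvS, hv.2⟩)
        · exact Finset.mem_union_right _ (Finset.mem_sdiff.2 ⟨hv.1, hvS⟩)
      exact (Finset.card_le_card hsub).trans (Finset.card_union_le _ _)
    have h3 : (S₀ \ S').card + S'.card = S₀.card := Finset.card_sdiff_add_card_eq_card hS'
    omega

theorem HST (hMDU : MDU_stmt) : HST_stmt := by
  intro V _ C A X Hv Dm E r ε he0 he1 hC hA hA' hDM hDX hrA hrB hE hED hdeg hbal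
  -- the graph
  obtain ⟨Γ, hΓ⟩ : ∃ Γ : SimpleGraph V, ∀ v w, Γ.Adj v w ↔ (C.Adj v w ∧ E v = v ∧ E w = w ∧
        ((v ∈ X ∧ w ∈ X) ∨ v ∈ Hv ∨ w ∈ Hv ∨ Dm v = w)) :=
    ⟨{ Adj := fun v w => C.Adj v w ∧ E v = v ∧ E w = w ∧
        ((v ∈ X ∧ w ∈ X) ∨ v ∈ Hv ∨ w ∈ Hv ∨ Dm v = w)
       symm := ⟨fun v w h => ⟨h.1.symm, h.2.2.1, h.2.1, by
        rcases h.2.2.2 with h1 | h1 | h1 | h1
        · exact Or.inl ⟨h1.2, h1.1⟩
        · exact Or.inr (Or.inr (Or.inl h1))
        · exact Or.inr (Or.inl h1)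
        · refine Or.inr (Or.inr (Or.inr ?_))
          rw [← h1]
          exact hDM.1 v⟩⟩
       loopless := ⟨fun v h => C.loopless.irrefl v h.1⟩ }, fun v w => Iff.rfl⟩
  have hΓC : ∀ v w, Γ.Adj v w → C.Adj v w := fun v w h => ((hΓ v w).1 h).1
  have hDi : Function.Injective Dm := (Function.LeftInverse.injective hDM.1)
  have hdegΓ : ∀ x ∈ X, E x = x → (1 / 4 + 4 * ε) * Fintype.card V ≤
      ((Finset.univ.filter fun b => Γ.Adj x b).card : ℝ) := by
    intro x hx hEx
    refine (hdeg x hx hEx).trans ?_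
    have : (Finset.univ.filter fun b =>
      E b = b ∧ C.Adj x b ∧ (b ∈ X ∨ x ∈ Hv ∨ b ∈ Hv ∨ Dm x = b)) ⊆
        (Finset.univ.filter fun b => Γ.Adj x b) := by
      intro b hb
      simp only [Finset.mem_filter, Finset.mem_univ, true_and] at hb ⊢
      rw [hΓ]
      refine ⟨hb.2.1, hEx, hb.1, ?_⟩
      rcases hb.2.2 with h | h | h | h
      · exact Or.inl ⟨hx, h⟩
      · exact Or.inr (Or.inl h)
      · exact Or.inr (Or.inr (Or.inl h))
      · exact Or.inr (Or.inr (Or.inr h))
    exact_mod_cast Finset.card_le_card this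
  have hDΓ : ∀ x ∈ X, Dm x ≠ x → Γ.Adj x (Dm x) ∧ Dm x ∉ X := by
    intro x hx hne
    refine ⟨(hΓ _ _).2 ⟨hDM.2 x hne, hED x hne, hED (Dm x) ?_, Or.inr (Or.inr (Or.inr rfl))⟩,
      (hDX x hne).1 hx⟩
    intro h
    exact hne (hDi h)
  set S₀ := (X ∩ A).filter fun x => E x = x with hS₀
  set T₀ := (X \ A).filter fun x => E x = x with hT₀
  have hrS : r ≤ (S₀.filter fun x => Dm x ≠ x).card := by
    rw [← hrA]
    apply Finset.card_le_card
    intro v hv
    rw [Finset.mem_filter] at hv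
    rw [Finset.mem_filter, hS₀, Finset.mem_filter]
    exact ⟨⟨hv.1, hED v hv.2⟩, hv.2⟩
  have hrT : r ≤ (T₀.filter fun x => Dm x ≠ x).card := by
    rw [← hrB]
    apply Finset.card_le_card
    intro v hv
    rw [Finset.mem_filter] at hv
    rw [Finset.mem_filter, hT₀, Finset.mem_filter]
    exact ⟨⟨hv.1, hED v hv.2⟩, hv.2⟩
  have hb := abs_le.1 hbal
  have hST : S₀.card ≤ T₀.card + r := by
    have h := hb.2
    have : (S₀.card : ℝ) ≤ T₀.card + r := by linarith
    exact_mod_cast this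
  have hTS : T₀.card ≤ S₀.card + r := by
    have h := hb.1
    have : (T₀.card : ℝ) ≤ S₀.card + r := by linarith
    exact_mod_cast this
  have hpos : ∀ v : V, (0 : ℝ) < Fintype.card V := by
    intro v
    have : 0 < Fintype.card V := Fintype.card_pos_iff.2 ⟨v⟩
    exact_mod_cast this
  have hHallS := HST_hall Γ A S₀ T₀ Dm r ((1 / 4 + 4 * ε) * Fintype.card V)
    (by
      intro v hv
      rw [hS₀, Finset.mem_filter, Finset.mem_inter] at hv
      exact hv.1.2)
    (by
      intro v hv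
      rw [hS₀, Finset.mem_filter, Finset.mem_inter] at hv
      exact hdegΓ v hv.1.1 hv.2)
    (by
      intro v hv
      rw [hT₀, Finset.mem_filter, Finset.mem_sdiff] at hv
      exact hdegΓ v hv.1.1 hv.2)
    (by
      intro v hv b hvb
      rw [hT₀, Finset.mem_filter, Finset.mem_sdiff] at hv
      have h := hC v b (hΓC v b hvb)
      by_contra hbA
      exact h ⟨fun h' => absurd h' hv.1.2, fun h' => absurd h' hbA⟩)
    (by
      rintro ⟨v, -⟩
      have := hpos v
      nlinarith)
    (by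
      intro v hv hne
      rw [hS₀, Finset.mem_filter, Finset.mem_inter] at hv
      obtain ⟨h1, h2⟩ := hDΓ v hv.1.1 hne
      refine ⟨h1, fun h3 => h2 ?_⟩
      rw [hT₀, Finset.mem_filter, Finset.mem_sdiff] at h3
      exact h3.1.1)
    hDi hrS hST
  have hHallT := HST_hall Γ Aᶜ T₀ S₀ Dm r ((1 / 4 + 4 * ε) * Fintype.card V)
    (by
      intro v hv
      rw [hT₀, Finset.mem_filter, Finset.mem_sdiff] at hv
      exact Finset.mem_compl.2 hv.1.2)
    (by
      intro v hv
      rw [hT₀, Finset.mem_filter, Finset.mem_sdiff] at hv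
      exact hdegΓ v hv.1.1 hv.2)
    (by
      intro v hv
      rw [hS₀, Finset.mem_filter, Finset.mem_inter] at hv
      exact hdegΓ v hv.1.1 hv.2)
    (by
      intro v hv b hvb
      rw [hS₀, Finset.mem_filter, Finset.mem_inter] at hv
      have h := hC v b (hΓC v b hvb)
      rw [Finset.mem_compl]
      intro hbA
      exact h ⟨fun _ => hbA, fun _ => hv.1.2⟩)
    (by
      rintro ⟨v, -⟩
      have := hpos v
      nlinarith)
    (by
      intro v hv hne
      rw [hT₀, Finset.mem_filter, Finset.mem_sdiff] at hv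
      obtain ⟨h1, h2⟩ := hDΓ v hv.1.1 hne
      refine ⟨h1, fun h3 => h2 ?_⟩
      rw [hS₀, Finset.mem_filter, Finset.mem_inter] at h3
      exact h3.1.1)
    hDi hrT hTS
  obtain ⟨m, hm, hmS, hmT⟩ := hMDU V Γ A S₀ T₀ (fun v w h => hC v w (hΓC v w h))
    (by
      intro v hv
      rw [hS₀, Finset.mem_filter, Finset.mem_inter] at hv
      exact hv.1.2)
    (by
      rw [Finset.disjoint_left]
      intro v hv
      rw [hT₀, Finset.mem_filter, Finset.mem_sdiff] at hv
      exact hv.1.2)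
    hHallS hHallT
  refine ⟨m, ⟨hm.1, fun v hv => hΓC _ _ (hm.2 v hv)⟩, ?_, ?_, ?_⟩
  · intro v hv
    by_contra hne
    exact hv ((hΓ _ _).1 (hm.2 v hne)).2.1
  · intro x hx hEx
    by_cases hxA : x ∈ A
    · exact hmS x (by
        rw [hS₀, Finset.mem_filter, Finset.mem_inter]
        exact ⟨⟨hx, hxA⟩, hEx⟩)
    · exact hmT x (by
        rw [hT₀, Finset.mem_filter, Finset.mem_sdiff]
        exact ⟨⟨hx, hxA⟩, hEx⟩)
  · intro v hv
    exact ((hΓ _ _).1 (hm.2 v hv)).2.2.2

end

end Pool.Agent.OF
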